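import Pool.Agent.W187.WQ.Stmts5
import Pool.Agent.W836.WP.EN

/-!
# WQ-ENg: the logarithmic kernel against an autocorrelation, any number of terms

Adapted from `Pool.Agent.W836.WP.EN` (helper836).
-/

set_option autoImplicit false

open MeasureTheory Set
open Pool.Agent.W187.WP Pool.Agent.W187.WQ
open Pool.Agent.W836.WP (RR ke G1 G1_integral G1_continuous RRdiv_integrable GG_sub RR_continuous
  RR_nonneg ke_continuous ke_integral part1 part2)

namespace Pool.Agent.W45.WQ

/-- the logarithm series -/
theorem neg_log_ge (m : ℕ) {u : ℝ} (h0 : |u| < 1) : Umm m u ≤ -(1 / 2) * Real.log (1 - u ^ 2) := by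
  have hu : |u ^ 2| < 1 := by
    rw [abs_pow]
    exact pow_lt_one₀ (abs_nonneg _) h0 (by norm_num)
  have h1 := Real.hasSum_pow_div_log_of_abs_lt_one hu
  have h2 : ∑ k ∈ Finset.range m, (u ^ 2) ^ (k + 1) / ((k : ℝ) + 1) ≤ -Real.log (1 - u ^ 2) := by
    apply sum_le_hasSum _ _ h1
    intro k _
    positivity
  have h3 : Umm m u = 1 / 2 * ∑ k ∈ Finset.range m, (u ^ 2) ^ (k + 1) / ((k : ℝ) + 1) := by
    unfold Umm
    rw [Finset.mul_sum]
    apply Finset.sum_congr rfl
    intro k _
    rw [← pow_mul]
    field_simp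
  rw [h3]
  linarith

theorem Umm_scale (m : ℕ) {x e : ℝ} (he : 0 < e) : (1 + e) ^ (-(2 * (m : ℤ))) * Umm m x ≤ Umm m (x / (1 + e)) := by
  unfold Umm
  rw [Finset.mul_sum]
  apply Finset.sum_le_sum
  intro k hk
  rw [Finset.mem_range] at hk
  rw [div_pow, ← mul_div_assoc]
  apply div_le_div_of_nonneg_right _ (by positivity)
  rw [mul_comm, div_eq_mul_inv]
  apply mul_le_mul_of_nonneg_left _ (by rw [pow_mul]; positivity)
  rw [zpow_neg]
  apply inv_anti₀ (by positivity)
  have : (1 + e) ^ (2 * (m : ℤ)) = (1 + e) ^ (2 * m) := by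
    rw [← zpow_natCast]
    push_cast
    rfl
  rw [this]
  exact pow_le_pow_right₀ (by linarith) (by omega)

/-- pointwise lower bound -/
theorem pointwise (m : ℕ) {x e : ℝ} (he : 0 < e) (h1 : -1 ≤ x) (h2 : x ≤ 1) :
    Real.log ((2 + e) / (1 + e)) + (1 + e) ^ (-(2 * (m : ℤ))) * Umm m x ≤
      1 / 2 * (Real.log (2 + e) - Real.log (1 - x + e)) +
        1 / 2 * (Real.log (2 + e) - Real.log (1 + x + e)) := by
  have hu : |x / (1 + e)| < 1 := by
    rw [abs_div, abs_of_pos (by linarith : (0 : ℝ) < 1 + e), div_lt_one (by linarith)]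
    have := abs_le.2 ⟨h1, h2⟩
    linarith
  have h3 := neg_log_ge m hu
  have h4 := Umm_scale m (x := x) he
  have h5 : Real.log (1 - (x / (1 + e)) ^ 2) =
      Real.log (1 - x + e) + Real.log (1 + x + e) - 2 * Real.log (1 + e) := by
    have e1 : 1 - (x / (1 + e)) ^ 2 = (1 - x + e) * (1 + x + e) / (1 + e) ^ 2 := by
      have : (1 + e) ≠ 0 := by linarith
      field_simp
      ring
    rw [e1, Real.log_div (by
      have a1 : 0 < 1 - x + e := by linarith
      have a2 : 0 < 1 + x + e := by linarith
      positivity) (by positivity), Real.log_mul (by linarith) (by linarith), Real.log_pow]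
    push_cast
    ring
  rw [Real.log_div (by linarith) (by linarith)]
  rw [h5] at h3
  linarith

theorem Umm_continuous (m : ℕ) : Continuous (Umm m) := by
  unfold Umm
  fun_prop

theorem RR_lower (m : ℕ) (tri : S_TRI) {h : ℝ → ℝ} (hh : ContDiff ℝ 1 h) {e : ℝ} (he : 0 < e) :
    Real.log ((2 + e) / (1 + e)) * (∫ x in (-1 : ℝ)..1, h x ^ 2) +
      (1 + e) ^ (-(2 * (m : ℤ))) * (∫ x in (-1 : ℝ)..1, Umm m x * h x ^ 2) ≤
      1 / 2 * ∫ s in (0 : ℝ)..2, RR h s / s := by
  have hc : Continuous h := hh.continuous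
  have hq : Continuous (fun x => h x ^ 2) := by fun_prop
  have hU := Umm_continuous m
  have hk := ke_continuous he
  have hR := RR_continuous hh
  have i1 : ∀ a b : ℝ, IntervalIntegrable (fun x => h x ^ 2) volume a b := fun a b =>
    hq.intervalIntegrable a b
  have hp : Continuous (fun u : ℝ => ∫ x in (-1 : ℝ)..u, h x ^ 2) :=
    intervalIntegral.continuous_primitive i1 _
  have hp1 : Continuous (fun s : ℝ => ∫ x in (1 - s)..1, h x ^ 2) := by
    have : (fun s : ℝ => ∫ x in (1 - s)..1, h x ^ 2) =
        fun s => (∫ x in (-1 : ℝ)..1, h x ^ 2) - (∫ x in (-1 : ℝ)..(1 - s), h x ^ 2) := by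
      funext s
      rw [← intervalIntegral.integral_add_adjacent_intervals (i1 (-1) (1 - s)) (i1 (1 - s) 1)]
      ring
    rw [this]
    exact continuous_const.sub (hp.comp (by fun_prop))
  have hp2 : Continuous (fun s : ℝ => ∫ x in (-1 : ℝ)..(s - 1), h x ^ 2) :=
    hp.comp (by fun_prop)
  -- lower bound by the regularised kernel
  have s1 : ∫ s in (0 : ℝ)..2, ke e s * RR h s ≤ ∫ s in (0 : ℝ)..2, RR h s / s := by
    apply intervalIntegral.integral_mono_on (by norm_num)
      ((hk.mul hR).intervalIntegrable _ _) (RRdiv_integrable hh)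
    intro s hs
    change ke e s * RR h s ≤ RR h s / s
    rcases eq_or_lt_of_le hs.1 with h0 | h0
    · rw [← h0]
      have : RR h 0 = 0 := by
        unfold RR
        norm_num
      rw [this]
      simp
    · unfold ke
      rw [abs_of_pos h0, div_eq_mul_inv (RR h s) s, mul_comm (RR h s)]
      apply mul_le_mul_of_nonneg_right _ (RR_nonneg hs.1)
      rw [one_div]
      exact inv_anti₀ h0 (by linarith)
  have s2 : ∫ s in (0 : ℝ)..2, ke e s * RR h s =
      (∫ x in (-1 : ℝ)..1, h x ^ 2 * (Real.log (2 + e) - Real.log (1 - x + e))) +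
      ∫ x in (-1 : ℝ)..1, h x ^ 2 * (Real.log (2 + e) - Real.log (1 + x + e)) := by
    rw [← part1 tri hq he, ← part2 tri hq he, ← intervalIntegral.integral_add]
    · apply intervalIntegral.integral_congr
      intro s _
      simp only [RR]
      ring
    · exact (hk.mul hp1).intervalIntegrable _ _
    · exact (hk.mul hp2).intervalIntegrable _ _
  have l1 : ContinuousOn (fun x => h x ^ 2 * (Real.log (2 + e) - Real.log (1 - x + e)))
      (uIcc (-1 : ℝ) 1) := by
    apply ContinuousOn.mul hq.continuousOn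
    apply ContinuousOn.sub continuousOn_const
    apply ContinuousOn.log (by fun_prop)
    intro x hx
    rw [uIcc_of_le (by norm_num)] at hx
    linarith [hx.2]
  have l2 : ContinuousOn (fun x => h x ^ 2 * (Real.log (2 + e) - Real.log (1 + x + e)))
      (uIcc (-1 : ℝ) 1) := by
    apply ContinuousOn.mul hq.continuousOn
    apply ContinuousOn.sub continuousOn_const
    apply ContinuousOn.log (by fun_prop)
    intro x hx
    rw [uIcc_of_le (by norm_num)] at hx
    linarith [hx.1]
  have s3 : Real.log ((2 + e) / (1 + e)) * (∫ x in (-1 : ℝ)..1, h x ^ 2) +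
      (1 + e) ^ (-(2 * (m : ℤ))) * (∫ x in (-1 : ℝ)..1, Umm m x * h x ^ 2) ≤
      1 / 2 * ((∫ x in (-1 : ℝ)..1, h x ^ 2 * (Real.log (2 + e) - Real.log (1 - x + e))) +
      ∫ x in (-1 : ℝ)..1, h x ^ 2 * (Real.log (2 + e) - Real.log (1 + x + e))) := by
    rw [← intervalIntegral.integral_const_mul, ← intervalIntegral.integral_const_mul,
      ← intervalIntegral.integral_add, ← intervalIntegral.integral_add l1.intervalIntegrable
        l2.intervalIntegrable, ← intervalIntegral.integral_const_mul]
    · apply intervalIntegral.integral_mono_on (by norm_num)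
      · exact (by fun_prop : Continuous fun x => Real.log ((2 + e) / (1 + e)) * h x ^ 2 +
          (1 + e) ^ (-(2 * (m : ℤ))) * (Umm m x * h x ^ 2)).intervalIntegrable _ _
      · exact (continuousOn_const.mul (l1.add l2)).intervalIntegrable
      · intro x hx
        have := mul_le_mul_of_nonneg_left (pointwise m he hx.1 hx.2) (sq_nonneg (h x))
        linarith
    · exact (by fun_prop : Continuous fun x =>
        Real.log ((2 + e) / (1 + e)) * h x ^ 2).intervalIntegrable _ _
    · exact (by fun_prop : Continuous fun x =>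
        (1 + e) ^ (-(2 * (m : ℤ))) * (Umm m x * h x ^ 2)).intervalIntegrable _ _
  rw [← s2] at s3
  linarith

/-- **WQ-ENg** -/
theorem eng : S_TRI → S_ENg := by
  intro tri m h hh hz
  have hc : Continuous h := hh.continuous
  have hU := Umm_continuous m
  have s1 : ∫ s in (0 : ℝ)..2, (GG h 0 - GG h s) / s =
      1 / 2 * EE h + 1 / 2 * ∫ s in (0 : ℝ)..2, RR h s / s := by
    rw [← G1_integral tri hh, ← intervalIntegral.integral_const_mul,
      ← intervalIntegral.integral_const_mul, ← intervalIntegral.integral_add]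
    · apply intervalIntegral.integral_congr_ae
      refine Filter.Eventually.of_forall ?_
      intro s hs
      rw [uIoc_of_le (by norm_num)] at hs
      exact GG_sub hh hz hs.1 hs.2
    · exact (continuous_const.mul (G1_continuous hh)).intervalIntegrable _ _
    · exact (RRdiv_integrable hh).const_mul _
  have s2 : (∫ x in (-1 : ℝ)..1, (Real.log 2 + Umm m x) * h x ^ 2) =
      Real.log 2 * (∫ x in (-1 : ℝ)..1, h x ^ 2) + ∫ x in (-1 : ℝ)..1, Umm m x * h x ^ 2 := by
    rw [← intervalIntegral.integral_const_mul, ← intervalIntegral.integral_add]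
    · apply intervalIntegral.integral_congr
      intro x _
      simp only
      ring
    · exact (by fun_prop : Continuous fun x => Real.log 2 * h x ^ 2).intervalIntegrable _ _
    · exact (by fun_prop : Continuous fun x => Umm m x * h x ^ 2).intervalIntegrable _ _
  rw [s1, s2]
  have hlim : Filter.Tendsto (fun e : ℝ =>
      Real.log ((2 + e) / (1 + e)) * (∫ x in (-1 : ℝ)..1, h x ^ 2) +
      (1 + e) ^ (-(2 * (m : ℤ))) * (∫ x in (-1 : ℝ)..1, Umm m x * h x ^ 2)) (nhdsWithin 0 (Ioi 0))
      (nhds (Real.log 2 * (∫ x in (-1 : ℝ)..1, h x ^ 2) +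
        ∫ x in (-1 : ℝ)..1, Umm m x * h x ^ 2)) := by
    apply Filter.Tendsto.mono_left _ nhdsWithin_le_nhds
    have hcont : ContinuousAt (fun e : ℝ =>
      Real.log ((2 + e) / (1 + e)) * (∫ x in (-1 : ℝ)..1, h x ^ 2) +
      (1 + e) ^ (-(2 * (m : ℤ))) * (∫ x in (-1 : ℝ)..1, Umm m x * h x ^ 2)) 0 := by
      apply ContinuousAt.add
      · apply ContinuousAt.mul _ continuousAt_const
        apply ContinuousAt.log
        · apply ContinuousAt.div (by fun_prop) (by fun_prop)
          norm_num
        · norm_num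
      · apply ContinuousAt.mul _ continuousAt_const
        apply ContinuousAt.zpow₀ (by fun_prop)
        left
        norm_num
    have := hcont.tendsto
    simpa using this
  have key : Real.log 2 * (∫ x in (-1 : ℝ)..1, h x ^ 2) + (∫ x in (-1 : ℝ)..1, Umm m x * h x ^ 2) ≤
      1 / 2 * ∫ s in (0 : ℝ)..2, RR h s / s := by
    apply le_of_tendsto hlim
    filter_upwards [self_mem_nhdsWithin] with e he
    exact RR_lower m tri hh he
  linarith

end Pool.Agent.W45.WQ
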